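import Pool.Agent.L0h7.MS.Stm3

/-!
# MS / SM3: finitely generated infinite groups of type (3) have infinite simple quotients with cyclic kernel
-/

set_option autoImplicit false

namespace Pool.Agent.L0h6.MS

open Pool.Agent.L0h7.MS

theorem finset_mem_chain {G : Type} [Group G] {c : Set (Subgroup G)} (hne : c.Nonempty)
    (hc : IsChain (· ≤ ·) c) (S : Finset G) (hS : ∀ s ∈ S, s ∈ sSup c) : ∃ N ∈ c, ∀ s ∈ S, s ∈ N := by
  classical
  induction S using Finset.induction_on with
  | empty =>
    obtain ⟨N, hN⟩ := hne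
    exact ⟨N, hN, fun s hs => absurd hs (Finset.notMem_empty s)⟩
  | insert a S _ ih =>
    obtain ⟨N, hN, h1⟩ := ih fun s hs => hS s (Finset.mem_insert_of_mem hs)
    obtain ⟨N', hN', h2⟩ := (Subgroup.mem_sSup_of_directedOn hne hc.directedOn).1
      (hS a (Finset.mem_insert_self a S))
    rcases hc.total hN hN' with h | h
    · refine ⟨N', hN', fun s hs => ?_⟩
      rcases Finset.mem_insert.1 hs with rfl | hs
      · exact h2
      · exact h (h1 s hs)
    · refine ⟨N, hN, fun s hs => ?_⟩
      rcases Finset.mem_insert.1 hs with rfl | hs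
      · exact h h2
      · exact h1 s hs

/-- A finitely generated infinite group has a normal subgroup which is maximal among those of infinite index. -/
theorem exists_max {G : Type} [Group G] (hFG : Group.FG G) (hinf : Infinite G) :
    ∃ M : Subgroup G, Maximal (· ∈ {N : Subgroup G | N.Normal ∧ N.index = 0}) M := by
  have hbot : (⊥ : Subgroup G) ∈ {N : Subgroup G | N.Normal ∧ N.index = 0} :=
    ⟨inferInstance, by rw [Subgroup.index_bot]; exact Nat.card_eq_zero_of_infinite⟩
  obtain ⟨M, -, hM⟩ := zorn_le_nonempty₀ {N : Subgroup G | N.Normal ∧ N.index = 0} (by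
    intro c hcs hc y hy
    have hne : c.Nonempty := ⟨y, hy⟩
    refine ⟨sSup c, ⟨?_, ?_⟩, fun z hz => le_sSup hz⟩
    · refine ⟨fun n hn g => ?_⟩
      obtain ⟨N, hN, h1⟩ := (Subgroup.mem_sSup_of_directedOn hne hc.directedOn).1 hn
      exact (le_sSup hN : N ≤ sSup c) ((hcs hN).1.conj_mem n h1 g)
    · by_contra h0
      have hfi : (sSup c).FiniteIndex := ⟨h0⟩
      have hfg : (sSup c).FG := (Group.fg_iff_subgroup_fg _).1 inferInstance
      obtain ⟨S, hS⟩ := hfg
      obtain ⟨N, hN, h1⟩ := finset_mem_chain hne hc S fun s hs => by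
        rw [← hS]
        exact Subgroup.subset_closure hs
      have h2 : sSup c ≤ N := by
        rw [← hS, Subgroup.closure_le]
        exact fun s hs => h1 s hs
      have h3 : sSup c = N := le_antisymm h2 (le_sSup hN)
      rw [h3] at h0
      exact h0 (hcs hN).2) ⊥ hbot
  exact ⟨M, hM⟩

/-- Finitely generated infinite groups of type (3) are extensions of infinite simple groups by cyclic groups. -/
theorem t_SM3 (hTYP : S_TYP) (hVC3 : S_VC3) : S_SM3 := by
  intro G _ hFG hinf hT3
  obtain ⟨M, hM⟩ := exists_max hFG hinf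
  have hMn : M.Normal := hM.prop.1
  have hMi : M.index = 0 := hM.prop.2
  have hQi : Infinite (G ⧸ M) := by
    by_contra h
    rw [not_infinite_iff_finite] at h
    exact Subgroup.index_ne_zero_of_finite hMi
  have hMt : M ≠ ⊤ := by
    rintro rfl
    rw [Subgroup.index_top] at hMi
    exact one_ne_zero hMi
  have hQ3 : Type3 (G ⧸ M) := hTYP.2.1 G (G ⧸ M) (QuotientGroup.mk' M) hFG
    (QuotientGroup.mk'_surjective M) hQi hT3
  refine ⟨M, hMn, hT3.2 M hMt, hQi, { exists_pair_ne := ?_, eq_bot_or_eq_top_of_normal := ?_ }⟩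
  · obtain ⟨x, hx⟩ := exists_ne (1 : G ⧸ M)
    exact ⟨x, 1, hx⟩
  · intro K hK
    by_cases hb : K = ⊥
    · exact Or.inl hb
    · right
      have hle : M ≤ K.comap (QuotientGroup.mk' M) := by
        intro x hx
        rw [Subgroup.mem_comap, QuotientGroup.mk'_apply, (QuotientGroup.eq_one_iff x).2 hx]
        exact K.one_mem
      have hidx : (K.comap (QuotientGroup.mk' M)).index = K.index :=
        Subgroup.index_comap_of_surjective K (QuotientGroup.mk'_surjective M)
      have hne : K.index ≠ 0 := by
        intro h0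
        have h1 : K.comap (QuotientGroup.mk' M) ≤ M :=
          hM.le_of_ge ⟨hK.comap _, by rw [hidx, h0]⟩ hle
        apply hb
        rw [eq_bot_iff]
        intro q hq
        obtain ⟨x, rfl⟩ := QuotientGroup.mk'_surjective M q
        have h2 : x ∈ M := h1 hq
        rw [Subgroup.mem_bot, QuotientGroup.mk'_apply, QuotientGroup.eq_one_iff]
        exact h2
      exact hVC3 (G ⧸ M) hQi hQ3 K hK ⟨hne⟩

end Pool.Agent.L0h6.MS
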