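import Pool.Agent.L0h7.MS.Stm3

/-!
# MS / SM4: infinite groups of type (4) are simple
-/

set_option autoImplicit false

open scoped Pointwise

namespace Pool.Agent.L0h6.MS

open Pool.Agent.L0h7.MS

/-- Infinite groups of type (4) are simple. -/
theorem t_SM4 : S_SM4 := by
  intro G _ hinf hT4
  obtain ⟨p, hp, hT⟩ := hT4
  have hfin : ∀ H : Subgroup G, H ≠ ⊤ → (H : Set G).Finite := by
    intro H hH
    by_cases hb : H = ⊥
    · rw [hb, Subgroup.coe_bot]
      exact Set.finite_singleton 1
    · have h1 : Finite H := Nat.finite_of_card_ne_zero (by rw [(hT H hb hH).2]; exact hp.ne_zero)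
      exact Set.toFinite _
  have htop : ∀ H : Subgroup G, (H : Set G).Finite → H ≠ ⊤ := by
    rintro H hH rfl
    rw [Subgroup.coe_top] at hH
    exact Set.infinite_univ hH
  have htor : ∀ g : G, IsOfFinOrder g := by
    intro g
    by_contra hg
    have h1 : Subgroup.zpowers (g ^ 2) ≠ ⊤ := by
      intro h
      have h2 : g ∈ Subgroup.zpowers (g ^ 2) := by rw [h]; trivial
      obtain ⟨k, hk⟩ := Subgroup.mem_zpowers_iff.1 h2
      apply hg
      rw [isOfFinOrder_iff_zpow_eq_one]
      refine ⟨2 * k - 1, by omega, ?_⟩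
      rw [zpow_sub, zpow_mul, zpow_one, zpow_ofNat, hk, mul_inv_cancel]
    have h2 := finite_zpowers.1 (hfin _ h1)
    rw [isOfFinOrder_pow] at h2
    rcases h2 with h2 | h2
    · exact hg h2
    · omega
  refine { exists_pair_ne := ?_, eq_bot_or_eq_top_of_normal := ?_ }
  · obtain ⟨x, hx⟩ := exists_ne (1 : G)
    exact ⟨x, 1, hx⟩
  · intro N hN
    by_contra hcon
    rw [not_or] at hcon
    obtain ⟨hb, ht⟩ := hcon
    obtain ⟨g, hg⟩ : ∃ g, g ∉ N := by
      by_contra h
      push Not at h
      exact ht ((Subgroup.eq_top_iff' N).2 h)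
    have h1 : ((Subgroup.zpowers g ⊔ N : Subgroup G) : Set G).Finite := by
      rw [Subgroup.mul_normal]
      exact (finite_zpowers.2 (htor g)).mul (hfin N ht)
    have h2 : Subgroup.zpowers g ⊔ N ≠ ⊤ := htop _ h1
    have h3 : Subgroup.zpowers g ⊔ N ≠ ⊥ := by
      intro h
      rw [sup_eq_bot_iff] at h
      exact hb h.2
    have h4 := (hT _ h3 h2).2
    have h5 := (hT _ hb ht).2
    have h6 : N = Subgroup.zpowers g ⊔ N := by
      have : Finite (Subgroup.zpowers g ⊔ N : Subgroup G) := h1
      exact Subgroup.eq_of_le_of_card_ge le_sup_right (by rw [h4, h5])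
    apply hg
    rw [h6]
    exact (le_sup_left : Subgroup.zpowers g ≤ _) (Subgroup.mem_zpowers g)

end Pool.Agent.L0h6.MS
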